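import Pool.Agent.H2.EA.Stm

/-!
# EA: eigenspaces of `A` in a representation of `G`: projections; Burnside's theorem
-/

set_option autoImplicit false

open Finset Module

namespace H44.EA

open H2.EA

section burnside
open scoped MonoidAlgebra

/-- Burnside: the operators of an irreducible representation span the endomorphisms -/
theorem burnside {G V : Type} [Group G] [AddCommGroup V] [Module ℂ V] [FiniteDimensional ℂ V]
    (ρ : Representation ℂ G V) (hρ : ρ.IsIrreducible) :
    Submodule.span ℂ (Set.range fun g => ρ g) = (⊤ : Submodule ℂ (Module.End ℂ V)) := by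
  classical
  have : IsSimpleModule (ℂ[G]) ρ.asModule :=
    (Representation.irreducible_iff_isSimpleModule_asModule ρ).mp hρ
  have hS : Function.Bijective (algebraMap ℂ (Module.End (ℂ[G]) ρ.asModule)) :=
    IsSimpleModule.algebraMap_end_bijective_of_isAlgClosed ℂ
  have key : ∀ r : ℂ[G], ρ.asAlgebraHom r ∈ Submodule.span ℂ (Set.range fun g => ρ g) := by
    intro r
    induction r using MonoidAlgebra.induction_linear with
    | zero => rw [map_zero]; exact zero_mem _
    | add x y hx hy => rw [map_add]; exact add_mem hx hy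
    | single g a =>
      rw [Representation.asAlgebraHom_single]
      exact Submodule.smul_mem _ _ (Submodule.subset_span ⟨g, rfl⟩)
  rw [eq_top_iff]
  intro f _
  let M := ρ.asModule
  let e : M ≃ₗ[ℂ] V := ρ.asModuleEquiv
  let f0 : M →ₗ[ℂ] M := e.symm.toLinearMap ∘ₗ f ∘ₗ e.toLinearMap
  let f1 : Module.End (Module.End (ℂ[G]) M) M :=
    { toFun := fun m => f0 m
      map_add' := fun m m' => map_add f0 m m'
      map_smul' := by
        intro φ m
        obtain ⟨c, rfl⟩ := hS.2 φ
        have h1 : ∀ x : M, (algebraMap ℂ (Module.End (ℂ[G]) M) c) • x = c • x := by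
          intro x
          rw [Module.End.smul_def, Module.algebraMap_end_apply]
        rw [RingHom.id_apply, h1, h1, map_smul] }
  let B := Module.finBasis ℂ V
  obtain ⟨r, hr⟩ := jacobson_density f1 (Finset.univ.image fun i => e.symm (B i))
  have h2 : f = ρ.asAlgebraHom r := by
    apply B.ext
    intro i
    have h3 := hr (e.symm (B i)) (Finset.mem_image_of_mem _ (Finset.mem_univ i))
    have h4 := congrArg e h3
    have h5 : e (r • e.symm (B i)) = ρ.asAlgebraHom r (e (e.symm (B i))) :=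
      Representation.asModuleEquiv_map_smul ρ r _
    rw [h5] at h4
    have h6 : e (f1 (e.symm (B i))) = f (B i) := by
      change e (e.symm (f (e (e.symm (B i))))) = f (B i)
      rw [LinearEquiv.apply_symm_apply, LinearEquiv.apply_symm_apply]
    rw [h6, LinearEquiv.apply_symm_apply] at h4
    exact h4
  rw [h2]
  exact key r

end burnside

section eigen
variable {p : ℕ} [Fact p.Prime] {G A : Type} [Group G] [AddCommGroup A]
  [Module (ZMod p) A] (D : Dat p G A) {V : Type} [AddCommGroup V] [Module ℂ V]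
  (ρ : Representation ℂ G V)

include D in
theorem finA [Finite G] : Finite A := Finite.of_injective D.ι D.ι_inj

theorem mem_eig {v : A →ₗ[ZMod p] ZMod p} {w : V} :
    w ∈ eig D ρ v ↔ ∀ a, ρ (D.ι a) w = (ZMod.stdAddChar (N := p) (v a) : ℂ) • w := Iff.rfl

/-- the projection onto the eigenspace -/
noncomputable def E [Fintype A] (u : A →ₗ[ZMod p] ZMod p) : V →ₗ[ℂ] V :=
  ((Fintype.card A : ℂ)⁻¹) • ∑ a : A, (ZMod.stdAddChar (N := p) (- u a) : ℂ) • (ρ (D.ι a))

variable [Fintype A]

theorem E_apply (u : A →ₗ[ZMod p] ZMod p) (x : V) : E D ρ u x = ((Fintype.card A : ℂ)⁻¹) •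
    ∑ a : A, (ZMod.stdAddChar (N := p) (- u a) : ℂ) • (ρ (D.ι a) x) := by
  unfold E
  simp [LinearMap.sum_apply]

theorem rho_E (u : A →ₗ[ZMod p] ZMod p) (b : A) (x : V) :
    ρ (D.ι b) (E D ρ u x) = (ZMod.stdAddChar (N := p) (u b) : ℂ) • E D ρ u x := by
  rw [E_apply, map_smul, map_sum, smul_comm]
  congr 1
  rw [Finset.smul_sum]
  refine Fintype.sum_equiv (Equiv.addLeft b) _ _ ?_
  intro a
  rw [map_smul, smul_smul, Equiv.coe_addLeft, ← AddChar.map_add_eq_mul, D.ι_add, map_mul,
    Module.End.mul_apply]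
  congr 2
  rw [map_add u]
  ring

theorem E_mem (u : A →ₗ[ZMod p] ZMod p) (x : V) : E D ρ u x ∈ eig D ρ u :=
  fun b => rho_E D ρ u b x

theorem E_rho (u : A →ₗ[ZMod p] ZMod p) (b : A) (x : V) :
    E D ρ u (ρ (D.ι b) x) = (ZMod.stdAddChar (N := p) (u b) : ℂ) • E D ρ u x := by
  rw [← rho_E, E_apply, E_apply, map_smul, map_sum]
  congr 1
  refine Finset.sum_congr rfl fun a _ => ?_
  rw [map_smul, ← Module.End.mul_apply, ← Module.End.mul_apply, ← map_mul, ← map_mul, D.ι_comm]

theorem E_id {u : A →ₗ[ZMod p] ZMod p} {x : V} (hx : x ∈ eig D ρ u) : E D ρ u x = x := by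
  rw [E_apply]
  have h1 : ∀ a : A, (ZMod.stdAddChar (N := p) (- u a) : ℂ) • (ρ (D.ι a) x) = x := by
    intro a
    rw [hx a, smul_smul, ← AddChar.map_add_eq_mul, neg_add_cancel, AddChar.map_zero_eq_one,
      one_smul]
  rw [Finset.sum_congr rfl fun a _ => h1 a, Finset.sum_const, Finset.card_univ,
    ← Nat.cast_smul_eq_nsmul ℂ, smul_smul, inv_mul_cancel₀, one_smul]
  exact Nat.cast_ne_zero.mpr Fintype.card_ne_zero

theorem E_zero {u u' : A →ₗ[ZMod p] ZMod p} (hu : u ≠ u') {x : V} (hx : x ∈ eig D ρ u') :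
    E D ρ u x = 0 := by
  obtain ⟨a, ha⟩ : ∃ a, u a ≠ u' a := by
    by_contra hc
    push Not at hc
    exact hu (LinearMap.ext hc)
  have h1 := E_rho D ρ u a x
  rw [hx a, map_smul] at h1
  by_contra hne
  have h2 := smul_left_injective ℂ hne h1
  exact ha (ZMod.injective_stdAddChar h2).symm

omit [Fintype A] in
/-- translation of eigenvectors -/
theorem rho_mem {v : A →ₗ[ZMod p] ZMod p} {w : V} (hw : w ∈ eig D ρ v) (g : G) :
    ρ g w ∈ eig D ρ (v ∘ₗ D.act g⁻¹) := by
  intro a
  have h1 : D.ι a * g = g * D.ι (D.act g⁻¹ a) := by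
    rw [D.ι_act]; group
  rw [← Module.End.mul_apply, ← map_mul, h1, map_mul, Module.End.mul_apply, hw, map_smul]
  rfl

omit [Fintype A] in
theorem rho_mem_stab {v : A →ₗ[ZMod p] ZMod p} {w : V} (hw : w ∈ eig D ρ v) {g : G}
    (hg : g ∈ D.stab v) : ρ g w ∈ eig D ρ v := by
  have h1 := rho_mem D ρ hw g
  have h2 : v ∘ₗ D.act g⁻¹ = v := LinearMap.ext fun a => (D.stab v).inv_mem hg a
  rwa [h2] at h1

omit [Fintype A] in
theorem conj_eq_iff (v : A →ₗ[ZMod p] ZMod p) (g h : G) :
    v ∘ₗ D.act g⁻¹ = v ∘ₗ D.act h⁻¹ ↔ g⁻¹ * h ∈ D.stab v := by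
  rw [D.mem_stab]
  constructor
  · intro e a
    have h1 := LinearMap.congr_fun e (D.act h a)
    rw [LinearMap.comp_apply, LinearMap.comp_apply, ← Module.End.mul_apply, ← map_mul,
      ← Module.End.mul_apply, ← map_mul, inv_mul_cancel, map_one] at h1
    exact h1
  · intro e
    ext a
    have h1 := e (D.act h⁻¹ a)
    rw [← Module.End.mul_apply, ← map_mul, mul_assoc, mul_inv_cancel, mul_one] at h1
    exact h1

end eigen

end H44.EA
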