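import Pool.Agent.H44.EA.Eig

/-!
# EA, part RTA (Clifford)
-/

set_option autoImplicit false

open Finset Module

namespace H44.EA

open H2.EA

theorem t_RTA : S_RTA := by
  intro p _ G A _ _ _ _ D V _ _ _ ρ hρ v hv
  classical
  have hAf := finA D
  let _ : Fintype A := Fintype.ofFinite A
  let _ : Fintype (G ⧸ D.stab v) := Fintype.ofFinite _
  let u : G ⧸ D.stab v → (A →ₗ[ZMod p] ZMod p) := fun q => v ∘ₗ D.act (q.out)⁻¹
  have hu : ∀ g : G, u (QuotientGroup.mk g) = v ∘ₗ D.act g⁻¹ := by
    intro g
    change v ∘ₗ D.act ((QuotientGroup.mk g : G ⧸ D.stab v).out)⁻¹ = _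
    rw [conj_eq_iff, ← QuotientGroup.eq, QuotientGroup.out_eq']
  have huinj : Function.Injective u := by
    intro q q' h
    have h1 := (conj_eq_iff D v q.out q'.out).mp h
    rw [← QuotientGroup.eq, QuotientGroup.out_eq', QuotientGroup.out_eq'] at h1
    exact h1
  let W : G ⧸ D.stab v → Submodule ℂ V := fun q => eig D ρ (u q)
  -- independence
  have hind : iSupIndep W := by
    intro q
    rw [Submodule.disjoint_def]
    intro x hx hx'
    have h1 : (⨆ j, ⨆ (_ : j ≠ q), W j) ≤ LinearMap.ker (E D ρ (u q)) := by
      refine iSup_le fun j => iSup_le fun hj => ?_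
      intro y hy
      rw [LinearMap.mem_ker]
      exact E_zero D ρ (fun h => hj (huinj h).symm) hy
    have h2 := h1 hx'
    rw [LinearMap.mem_ker, E_id D ρ hx] at h2
    exact h2
  -- the sum is everything
  have htop : iSup W = ⊤ := by
    let S : Subrepresentation ρ :=
      { toSubmodule := iSup W
        apply_mem_toSubmodule := by
          intro h w hw
          have h1 : iSup W ≤ (iSup W).comap (ρ h) := by
            refine iSup_le fun q => ?_
            intro x hx
            rw [Submodule.mem_comap]
            have h2 := rho_mem D ρ hx h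
            have h3 : (u q) ∘ₗ D.act h⁻¹ = u (QuotientGroup.mk (h * q.out)) := by
              rw [hu, mul_inv_rev, map_mul]
              rfl
            rw [h3] at h2
            exact Submodule.mem_iSup_of_mem (QuotientGroup.mk (h * q.out)) h2
          exact h1 hw }
    rcases hρ.eq_bot_or_eq_top S with h | h
    · exfalso
      have h1 : iSup W = ⊥ := congrArg Subrepresentation.toSubmodule h
      apply hv
      rw [eq_bot_iff, ← h1]
      have h2 : eig D ρ v = W (QuotientGroup.mk 1) := by
        change eig D ρ v = eig D ρ (u (QuotientGroup.mk 1))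
        rw [hu, inv_one, map_one]
        rfl
      rw [h2]
      exact le_iSup W _
    · exact congrArg Subrepresentation.toSubmodule h
  -- the dimensions
  have hdim : ∀ q, finrank ℂ (W q) = finrank ℂ (eig D ρ v) := by
    intro q
    let e : V ≃ₗ[ℂ] V := LinearEquiv.ofLinear (ρ q.out) (ρ q.out⁻¹)
      (by rw [← Module.End.mul_eq_comp, ← map_mul, mul_inv_cancel, map_one]; rfl)
      (by rw [← Module.End.mul_eq_comp, ← map_mul, inv_mul_cancel, map_one]; rfl)
    have h1 : W q = (eig D ρ v).map (e : V →ₗ[ℂ] V) := by
      apply le_antisymm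
      · intro x hx
        rw [Submodule.mem_map]
        refine ⟨ρ q.out⁻¹ x, ?_, ?_⟩
        · have h2 := rho_mem D ρ hx q.out⁻¹
          have h3 : (u q) ∘ₗ D.act (q.out⁻¹)⁻¹ = v := by
            change (v ∘ₗ D.act (q.out)⁻¹) ∘ₗ D.act (q.out⁻¹)⁻¹ = v
            rw [LinearMap.comp_assoc, ← Module.End.mul_eq_comp, ← map_mul, inv_inv,
              inv_mul_cancel, map_one]
            rfl
          rwa [h3] at h2
        · exact e.apply_symm_apply x
      · rintro x ⟨y, hy, rfl⟩
        exact rho_mem D ρ hy q.out
    rw [h1]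
    exact LinearEquiv.finrank_map_eq e _
  have hint : DirectSum.IsInternal W :=
    DirectSum.isInternal_submodule_of_iSupIndep_of_iSup_eq_top hind htop
  have h1 := (LinearEquiv.ofBijective (DirectSum.coeLinearMap W) hint).finrank_eq
  rw [← h1, Module.finrank_directSum, Finset.sum_congr rfl fun q _ => hdim q, Finset.sum_const,
    Finset.card_univ, smul_eq_mul, ← Nat.card_eq_fintype_card]
  rfl

end H44.EA
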