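import Pool.Agent.H44.EA.Eig

/-!
# EA, part RTB: the square of the dimension of the eigenspace
-/

set_option autoImplicit false

open Finset Module

namespace H44.EA

open H2.EA

theorem t_RTB : S_RTB := by
  intro p _ G A _ _ _ _ D V _ _ _ ρ hρ v hv
  classical
  have hAf := finA D
  let _ : Fintype A := Fintype.ofFinite A
  set W := eig D ρ v with hW
  have hT : ∀ g : D.stabK ⊤ v, g.1 ∈ D.stab v := fun g => g.2.1
  let σ : D.stabK ⊤ v →* Module.End ℂ W :=
    { toFun := fun g => (ρ g.1).restrict (fun w hw => rho_mem_stab D ρ hw (hT g))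
      map_one' := by
        ext w
        change ρ 1 w.1 = w.1
        rw [map_one]; rfl
      map_mul' := by
        intro g h
        ext w
        change ρ (g.1 * h.1) w.1 = ρ g.1 (ρ h.1 w.1)
        rw [map_mul]; rfl }
  have hσ : ∀ g w, ((σ g w : W) : V) = ρ g.1 w.1 := fun g w => rfl
  -- the operators span
  have hspan : Submodule.span ℂ (Set.range σ) = ⊤ := by
    let P : V →ₗ[ℂ] W := (E D ρ v).codRestrict W (E_mem D ρ v)
    let Φ : Module.End ℂ V →ₗ[ℂ] Module.End ℂ W :=
      { toFun := fun X => P ∘ₗ X ∘ₗ W.subtype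
        map_add' := by intro X Y; ext w; simp
        map_smul' := by intro c X; ext w; simp }
    have hΦ : ∀ X w, ((Φ X w : W) : V) = E D ρ v (X w.1) := fun X w => rfl
    rw [eq_top_iff]
    intro f _
    have hf : Φ (W.subtype ∘ₗ f ∘ₗ P) = f := by
      apply LinearMap.ext
      intro w
      apply Subtype.ext
      rw [hΦ]
      have h1 : P w.1 = w := Subtype.ext (E_id D ρ w.2)
      have h2 : (W.subtype ∘ₗ f ∘ₗ P) w.1 = (f w).1 := by
        change ((f (P w.1) : W) : V) = (f w).1
        rw [h1]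
      rw [h2]
      exact E_id D ρ (f w).2
    have h1 : (W.subtype ∘ₗ f ∘ₗ P) ∈ Submodule.span ℂ (Set.range fun g => ρ g) := by
      rw [burnside ρ hρ]; trivial
    have h2 := Submodule.mem_map_of_mem (f := Φ) h1
    rw [hf, Submodule.map_span] at h2
    refine Submodule.span_le.mpr ?_ h2
    rintro _ ⟨_, ⟨g, rfl⟩, rfl⟩
    by_cases hg : g ∈ D.stab v
    · have h3 : Φ (ρ g) = σ ⟨g, hg, trivial⟩ := by
        apply LinearMap.ext
        intro w
        apply Subtype.ext
        rw [hΦ, hσ]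
        exact E_id D ρ (rho_mem_stab D ρ w.2 hg)
      change Φ (ρ g) ∈ _
      rw [h3]
      exact Submodule.subset_span ⟨_, rfl⟩
    · have h3 : Φ (ρ g) = 0 := by
        apply LinearMap.ext
        intro w
        apply Subtype.ext
        rw [hΦ]
        refine E_zero D ρ ?_ (rho_mem D ρ w.2 g)
        intro h4
        apply hg
        have h5 : v ∘ₗ D.act (1 : G)⁻¹ = v ∘ₗ D.act g⁻¹ := by
          rw [← h4, inv_one, map_one]
          rfl
        have h6 := (conj_eq_iff D v 1 g).mp h5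
        rwa [inv_one, one_mul] at h6
      change Φ (ρ g) ∈ _
      rw [h3]
      exact zero_mem _
  -- commutation
  have hcomm : ∀ g h : D.stabK ⊤ v, σ g * σ h =
      (ZMod.stdAddChar (N := p) (v (D.c g.1 h.1)) : ℂ) • (σ h * σ g) := by
    intro g h
    apply LinearMap.ext
    intro w
    apply Subtype.ext
    have h1 : ρ g.1 (ρ h.1 w.1) = ρ (D.ι (D.c g.1 h.1)) (ρ h.1 (ρ g.1 w.1)) := by
      rw [← Module.End.mul_apply, ← Module.End.mul_apply, ← Module.End.mul_apply, ← map_mul,
        ← map_mul, ← map_mul, D.ι_c]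
      congr 2
      group
    have h2 : ρ h.1 (ρ g.1 w.1) ∈ eig D ρ v :=
      rho_mem_stab D ρ (rho_mem_stab D ρ w.2 (hT g)) (hT h)
    have h3 := h2 (D.c g.1 h.1)
    change ρ g.1 (ρ h.1 w.1) = (ZMod.stdAddChar (N := p) (v (D.c g.1 h.1)) : ℂ) • (ρ h.1 (ρ g.1 w.1))
    rw [h1, h3]
  -- the radical
  set R := (D.radK ⊤ v).subgroupOf (D.stabK ⊤ v) with hR
  have hRmem : ∀ g : D.stabK ⊤ v, g ∈ R ↔ ∀ h : D.stabK ⊤ v, v (D.c g.1 h.1) = 0 := by
    intro g
    rw [hR, Subgroup.mem_subgroupOf]
    constructor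
    · intro h x
      exact h.2 x.1 x.2
    · intro h
      exact ⟨g.2, fun x hx => h ⟨x, hx⟩⟩
  have hscal : ∀ g ∈ R, ∃ c : ℂ, σ g = c • (1 : Module.End ℂ W) := by
    intro g hg
    have h1 : ∀ X : Module.End ℂ W, X * σ g = σ g * X := by
      intro X
      have hX : X ∈ Submodule.span ℂ (Set.range σ) := by rw [hspan]; trivial
      induction hX using Submodule.span_induction with
      | mem x hx =>
        obtain ⟨h, rfl⟩ := hx
        rw [hcomm g h, (hRmem g).mp hg h, AddChar.map_zero_eq_one, one_smul]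
      | zero => rw [zero_mul, mul_zero]
      | add x y _ _ hx hy => rw [add_mul, mul_add, hx, hy]
      | smul c x _ hx => rw [smul_mul_assoc, mul_smul_comm, hx]
    have h2 : σ g ∈ Subalgebra.center ℂ (Module.End ℂ W) := by
      rw [Subalgebra.mem_center_iff]
      exact h1
    rw [Algebra.IsCentral.center_eq_bot ℂ (Module.End ℂ W)] at h2
    obtain ⟨c, hc⟩ := Algebra.mem_bot.mp h2
    exact ⟨c, by rw [← hc, Algebra.algebraMap_eq_smul_one]⟩
  have htr : ∀ g : D.stabK ⊤ v, g ∉ R → LinearMap.trace ℂ W (σ g) = 0 := by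
    intro g hg
    have h1 : ∃ h : D.stabK ⊤ v, v (D.c g.1 h.1) ≠ 0 := by
      by_contra hc
      push Not at hc
      exact hg ((hRmem g).mpr hc)
    obtain ⟨h, hh⟩ := h1
    have h2 := hcomm g h
    have h3 : σ g = (ZMod.stdAddChar (N := p) (v (D.c g.1 h.1)) : ℂ) •
        (σ h * σ g * σ h⁻¹) := by
      rw [← smul_mul_assoc, ← h2, mul_assoc, ← map_mul, mul_inv_cancel, map_one, mul_one]
    have h4 : LinearMap.trace ℂ W (σ g) =
        (ZMod.stdAddChar (N := p) (v (D.c g.1 h.1)) : ℂ) * LinearMap.trace ℂ W (σ g) := by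
      conv_lhs => rw [h3]
      rw [map_smul, smul_eq_mul, LinearMap.trace_mul_comm, ← mul_assoc, ← map_mul,
        inv_mul_cancel, map_one, one_mul]
    by_contra hne
    have h5 : (ZMod.stdAddChar (N := p) (v (D.c g.1 h.1)) : ℂ) = 1 := by
      have h6 : (1 - (ZMod.stdAddChar (N := p) (v (D.c g.1 h.1)) : ℂ)) *
          LinearMap.trace ℂ W (σ g) = 0 := by
        rw [sub_mul, one_mul, ← h4, sub_self]
      rcases mul_eq_zero.mp h6 with h7 | h7
      · exact (sub_eq_zero.mp h7).symm
      · exact absurd h7 hne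
    rw [← AddChar.map_zero_eq_one (ZMod.stdAddChar (N := p))] at h5
    exact hh (ZMod.injective_stdAddChar h5)
  -- the basis
  let _ : Fintype (D.stabK ⊤ v ⧸ R) := Fintype.ofFinite _
  let b : (D.stabK ⊤ v ⧸ R) → Module.End ℂ W := fun q => σ q.out
  have hWd : finrank ℂ W ≠ 0 := by
    intro h0
    exact hv (Submodule.finrank_eq_zero.mp h0)
  have hli : LinearIndependent ℂ b := by
    rw [Fintype.linearIndependent_iff]
    intro c hc q0
    have h1 : LinearMap.trace ℂ W (σ (q0.out)⁻¹ * ∑ q, c q • b q) = 0 := by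
      rw [hc, mul_zero, map_zero]
    rw [Finset.mul_sum, map_sum, Finset.sum_eq_single q0] at h1
    · rw [mul_smul_comm, map_smul] at h1
      have h2 : σ (q0.out)⁻¹ * b q0 = 1 := by
        change σ (q0.out)⁻¹ * σ q0.out = 1
        rw [← map_mul, inv_mul_cancel, map_one]
      rw [h2, LinearMap.trace_one, smul_eq_mul] at h1
      rcases mul_eq_zero.mp h1 with h3 | h3
      · exact h3
      · exact absurd (Nat.cast_eq_zero.mp h3) hWd
    · intro q _ hq
      rw [mul_smul_comm, map_smul]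
      have h2 : σ (q0.out)⁻¹ * b q = σ ((q0.out)⁻¹ * q.out) := by
        change σ (q0.out)⁻¹ * σ q.out = _
        rw [← map_mul]
      rw [h2, htr, smul_zero]
      intro h3
      apply hq
      rw [← QuotientGroup.eq, QuotientGroup.out_eq', QuotientGroup.out_eq'] at h3
      exact h3.symm
    · intro h; exact absurd (Finset.mem_univ _) h
  have hsp : ⊤ ≤ Submodule.span ℂ (Set.range b) := by
    rw [← hspan, Submodule.span_le]
    rintro _ ⟨g, rfl⟩
    have h1 : (QuotientGroup.mk g : D.stabK ⊤ v ⧸ R).out⁻¹ * g ∈ R := by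
      rw [← QuotientGroup.eq, QuotientGroup.out_eq']
    obtain ⟨c, hc⟩ := hscal _ h1
    have h2 : σ g = c • b (QuotientGroup.mk g) := by
      have h3 : g = (QuotientGroup.mk g : D.stabK ⊤ v ⧸ R).out *
          ((QuotientGroup.mk g : D.stabK ⊤ v ⧸ R).out⁻¹ * g) := by group
      conv_lhs => rw [h3]
      rw [map_mul, hc, mul_smul_comm, mul_one]
    rw [h2]
    exact Submodule.smul_mem _ _ (Submodule.subset_span ⟨_, rfl⟩)
  have hfin := Module.finrank_eq_card_basis (Basis.mk hli hsp)
  rw [Module.finrank_linearMap, ← Nat.card_eq_fintype_card] at hfin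
  rw [pow_two, hfin]
  rfl

end H44.EA
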